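import Pool.Agent.W102.GI.Defs

/-!
# GI-H1: a power series identity
-/

set_option autoImplicit false

namespace Pool.Agent.W253.GI

open Pool.Agent.W102.GI PowerSeries

theorem dS (m : ℕ) : d⁄dX ℚ (S m) = ((m : PowerSeries ℚ) + 1) * S (m + 1) := by
  ext n
  have e : ((m : PowerSeries ℚ) + 1) = C ((m : ℚ) + 1) := by simp
  rw [e, coeff_derivative, coeff_C_mul]
  simp only [S, coeff_mk]
  have h := Nat.choose_succ_right_eq (n + m + 1) m
  have e1 : n + (m + 1) = n + m + 1 := by ring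
  have e2 : n + 1 + m = n + m + 1 := by ring
  have e3 : n + m + 1 - m = n + 1 := by omega
  rw [e3] at h
  rw [e1, e2]
  have h' : ((n + m + 1).choose (m + 1) : ℚ) * ((m : ℚ) + 1) =
      ((n + m + 1).choose m : ℚ) * ((n : ℚ) + 1) := by exact_mod_cast h
  linarith

theorem SV (m : ℕ) : S m = (1 - X) * S (m + 1) := by
  rw [sub_mul, one_mul]
  ext n
  rw [map_sub]
  cases n with
  | zero => simp [S]
  | succ n =>
    rw [coeff_succ_X_mul]
    simp only [S, coeff_mk]
    have e1 : n + 1 + (m + 1) = (n + 1 + m) + 1 := by ring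
    have e2 : n + (m + 1) = n + 1 + m := by ring
    rw [e1, e2, Nat.choose_succ_succ]
    push_cast
    ring

theorem thX (k : ℕ) : X * d⁄dX ℚ (X ^ k : PowerSeries ℚ) = (k : PowerSeries ℚ) * X ^ k := by
  rw [Derivation.leibniz_pow, derivative_X]
  cases k with
  | zero => simp
  | succ k =>
    simp only [smul_eq_mul, nsmul_eq_mul, Nat.add_sub_cancel]
    ring

theorem thU (s : ℕ) : X * d⁄dX ℚ ((1 + X) ^ (s + 1) : PowerSeries ℚ) =
    ((s : PowerSeries ℚ) + 1) * X * (1 + X) ^ s := by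
  rw [Derivation.leibniz_pow]
  simp only [map_add, derivative_X, smul_eq_mul, nsmul_eq_mul, Nat.add_sub_cancel]
  have h1 : d⁄dX ℚ (1 : PowerSeries ℚ) = 0 := by
    exact Derivation.map_one_eq_zero _
  rw [h1]
  push_cast
  ring

theorem thmul (f g : PowerSeries ℚ) : X * d⁄dX ℚ (f * g) =
    (X * d⁄dX ℚ f) * g + f * (X * d⁄dX ℚ g) := by
  rw [Derivation.leibniz]
  simp only [smul_eq_mul]
  ring

theorem coeff_th (f : PowerSeries ℚ) (r : ℕ) : coeff r (X * d⁄dX ℚ f) = (r : ℚ) * coeff r f := by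
  cases r with
  | zero => simp
  | succ r =>
    rw [coeff_succ_X_mul, coeff_derivative]
    push_cast
    ring

theorem thm_H1 : H1 := by
  intro m k r hk
  obtain ⟨s, rfl⟩ := Nat.exists_eq_add_of_le hk
  have key : 2 * (X * d⁄dX ℚ (hs (2 * k + s) k)) + hs (2 * k + s) k =
      (2 * (k : PowerSeries ℚ) + 1) * hs (2 * k + s + 1) k +
        4 * (s : PowerSeries ℚ) * hs (2 * k + s + 1) (k + 1) := by
    cases s with
    | zero =>
      have e1 : 2 * k + 0 - 2 * k = 0 := by omega
      have e2 : 2 * k + 0 + 1 - 2 * k = 1 := by omega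
      simp only [hs, e1, e2]
      rw [pow_zero, mul_one, thmul, thX, dS, SV (2 * k + 0)]
      push_cast
      ring
    | succ s =>
      have e1 : 2 * k + (s + 1) - 2 * k = s + 1 := by omega
      have e2 : 2 * k + (s + 1) + 1 - 2 * k = s + 2 := by omega
      have e3 : 2 * k + (s + 1) + 1 - 2 * (k + 1) = s := by omega
      simp only [hs, e1, e2, e3]
      rw [thmul, thmul, thX, thU, dS, SV (2 * k + (s + 1))]
      push_cast
      ring
  have h := congrArg (coeff r) key
  have e : ∀ (a : ℚ) (f : PowerSeries ℚ), coeff r (C a * f) = a * coeff r f :=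
    fun a f => coeff_C_mul r f a
  have c2 : (2 : PowerSeries ℚ) = C (2 : ℚ) := (map_ofNat (C : ℚ →+* PowerSeries ℚ) 2).symm
  have c4 : (4 : PowerSeries ℚ) = C (4 : ℚ) := (map_ofNat (C : ℚ →+* PowerSeries ℚ) 4).symm
  have ck : (2 * (k : PowerSeries ℚ) + 1) = C (2 * (k : ℚ) + 1) := by
    rw [map_add, map_mul, ← c2, map_natCast, map_one]
  have cs : (4 * (s : PowerSeries ℚ)) = C (4 * (s : ℚ)) := by
    rw [map_mul, ← c4, map_natCast]
  rw [map_add, map_add, ck, cs, e, e, c2, e, coeff_th] at h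
  have hs' : (((2 * k + s : ℕ) : ℚ) - 2 * k) = s := by push_cast; ring
  rw [hs']
  linarith

end Pool.Agent.W253.GI
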